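import Mathlib
import Pool.Agent.Run7.h783.MW.Mom

/-!
# Near solutions of the quadratic system in four variables (helper783)
-/

set_option autoImplicit false

open Finset

namespace Pool.Agent.Run7.h783.LM

/-- quadruples from `[1, N]` -/
noncomputable def bx (N : ℕ) : Finset (ℤ × ℤ × ℤ × ℤ) :=
  (Icc 1 (N : ℤ)) ×ˢ ((Icc 1 (N : ℤ)) ×ˢ ((Icc 1 (N : ℤ)) ×ˢ (Icc 1 (N : ℤ))))

theorem mem_bx {N : ℕ} {v : ℤ × ℤ × ℤ × ℤ} : v ∈ bx N ↔
    (1 ≤ v.1 ∧ v.1 ≤ N) ∧ (1 ≤ v.2.1 ∧ v.2.1 ≤ N) ∧ (1 ≤ v.2.2.1 ∧ v.2.2.1 ≤ N) ∧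
      (1 ≤ v.2.2.2 ∧ v.2.2.2 ≤ N) := by
  unfold bx
  simp only [mem_product, mem_Icc]

/-- the linear form -/
def l1 (v : ℤ × ℤ × ℤ × ℤ) : ℤ := v.1 + v.2.1 - v.2.2.1 - v.2.2.2

/-- the quadratic form -/
def l2 (v : ℤ × ℤ × ℤ × ℤ) : ℤ := v.1 ^ 2 + v.2.1 ^ 2 - v.2.2.1 ^ 2 - v.2.2.2 ^ 2

/-- near solutions -/
noncomputable def near (N M : ℕ) : Finset (ℤ × ℤ × ℤ × ℤ) := (bx N).filter fun v => |l1 v| ≤ M ∧ |l2 v| ≤ M

/-- the degenerate part -/
theorem deg (N M : ℕ) :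
    ((near N M).filter fun v => l2 v = l1 v * (v.2.1 + v.2.2.2)).card ≤ 2 * N ^ 2 + 2 * (N * M ^ 2) := by
  classical
  set A1 : Finset (ℤ × ℤ × ℤ × ℤ) := ((Icc 1 (N : ℤ)) ×ˢ (Icc 1 (N : ℤ))).image
    (fun c => (c.1, c.2, c.1, c.2)) with hA1
  set A2 : Finset (ℤ × ℤ × ℤ × ℤ) := ((Icc 1 (N : ℤ)) ×ˢ ((Icc 1 (M : ℤ)) ×ˢ (Icc 1 (M : ℤ)))).image
    (fun c => (c.1, c.2.1, c.1, c.2.2)) with hA2
  set A3 : Finset (ℤ × ℤ × ℤ × ℤ) := ((Icc 1 (N : ℤ)) ×ˢ (Icc 1 (N : ℤ))).image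
    (fun c => (c.1, c.2, c.2, c.1)) with hA3
  set A4 : Finset (ℤ × ℤ × ℤ × ℤ) := ((Icc 1 (N : ℤ)) ×ˢ ((Icc 1 (M : ℤ)) ×ˢ (Icc 1 (M : ℤ)))).image
    (fun c => (c.1, c.2.1, c.2.2, c.1 + c.2.2 - c.2.1)) with hA4
  have hsub : (near N M).filter (fun v => l2 v = l1 v * (v.2.1 + v.2.2.2)) ⊆ (A1 ∪ A2) ∪ (A3 ∪ A4) := by
    rintro ⟨a, b, c, d⟩ hv
    rw [mem_filter, near, mem_filter, mem_bx] at hv
    simp only [l1, l2] at hv
    obtain ⟨⟨⟨⟨ha1, ha2⟩, ⟨hb1, hb2⟩, ⟨hc1, hc2⟩, ⟨hd1, hd2⟩⟩, h1, h2⟩, h3⟩ := hv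
    have h4 : (a - c) * (a + c - (b + d)) = 0 := by linear_combination h3
    rw [abs_le] at h2
    rw [mem_union, mem_union, mem_union]
    rcases mul_eq_zero.1 h4 with h5 | h5
    · left
      have hac : c = a := by omega
      subst hac
      by_cases hbd : b = d
      · left
        subst hbd
        rw [hA1, mem_image]
        refine ⟨(c, b), ?_, rfl⟩
        rw [mem_product, mem_Icc, mem_Icc]
        exact ⟨⟨ha1, ha2⟩, hb1, hb2⟩
      · right
        have h6 : b + d ≤ M := by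
          have h7 : (b - d) * (b + d) ≤ M ∧ -(M : ℤ) ≤ (b - d) * (b + d) := by
            constructor <;> nlinarith
          rcases lt_or_gt_of_ne hbd with h8 | h8
          · nlinarith
          · nlinarith
        rw [hA2, mem_image]
        refine ⟨(c, b, d), ?_, rfl⟩
        rw [mem_product, mem_product, mem_Icc, mem_Icc, mem_Icc]
        refine ⟨⟨ha1, ha2⟩, ⟨hb1, ?_⟩, hd1, ?_⟩ <;> dsimp only <;> omega
    · right
      have hd : d = a + c - b := by omega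
      subst hd
      by_cases hbc : b = c
      · left
        subst hbc
        rw [hA3, mem_image]
        refine ⟨(a, b), ?_, ?_⟩
        · rw [mem_product, mem_Icc, mem_Icc]
          exact ⟨⟨ha1, ha2⟩, hb1, hb2⟩
        · simp only [Prod.mk.injEq, true_and]
          omega
      · right
        have h6 : a + c ≤ M := by
          have h7 : 2 * ((b - c) * (a + c)) ≤ M ∧ -(M : ℤ) ≤ 2 * ((b - c) * (a + c)) := by
            constructor <;> nlinarith
          rcases lt_or_gt_of_ne hbc with h8 | h8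
          · nlinarith
          · nlinarith
        rw [hA4, mem_image]
        refine ⟨(a, b, c), ?_, rfl⟩
        rw [mem_product, mem_product, mem_Icc, mem_Icc, mem_Icc]
        refine ⟨⟨ha1, ha2⟩, ⟨hb1, ?_⟩, hc1, ?_⟩ <;> dsimp only <;> omega
  have hI : ∀ K : ℕ, (Icc 1 (K : ℤ)).card = K := by
    intro K
    rw [Int.card_Icc]
    omega
  have c1 : A1.card ≤ N ^ 2 := by
    refine card_image_le.trans (le_of_eq ?_)
    rw [card_product, hI]
    ring
  have c2 : A2.card ≤ N * M ^ 2 := by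
    refine card_image_le.trans (le_of_eq ?_)
    rw [card_product, card_product, hI, hI]
    ring
  have c3 : A3.card ≤ N ^ 2 := by
    refine card_image_le.trans (le_of_eq ?_)
    rw [card_product, hI]
    ring
  have c4 : A4.card ≤ N * M ^ 2 := by
    refine card_image_le.trans (le_of_eq ?_)
    rw [card_product, card_product, hI, hI]
    ring
  have h1 := card_le_card hsub
  have h2 := card_union_le (A1 ∪ A2) (A3 ∪ A4)
  have h3 := card_union_le A1 A2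
  have h4 := card_union_le A3 A4
  omega

/-- the non-degenerate part -/
theorem nondeg (N M D : ℕ) (hD : ∀ n : ℕ, 1 ≤ n → n ≤ M + M * (2 * N) → n.divisors.card ≤ D) :
    ((near N M).filter fun v => ¬ l2 v = l1 v * (v.2.1 + v.2.2.2)).card ≤
      (2 * D) * ((2 * N) * (2 * M + 1) ^ 2) := by
  classical
  set T := (near N M).filter fun v => ¬ l2 v = l1 v * (v.2.1 + v.2.2.2) with hT
  set f : ℤ × ℤ × ℤ × ℤ → ℤ × ℤ × ℤ := fun v => (v.2.1 + v.2.2.2, l1 v, l2 v) with hf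
  have h1 : T.card ≤ (2 * D) * (T.image f).card := by
    refine Finset.card_le_mul_card_image T (2 * D) ?_
    rintro ⟨q, u, w⟩ hquw
    obtain ⟨v0, hv0, hfv0⟩ := Finset.mem_image.1 hquw
    set h : ℤ := w - u * q with hh
    have hprop : ∀ v ∈ T, f v = (q, u, w) → h ≠ 0 ∧ h.natAbs ≤ M + M * (2 * N) ∧
        h = (v.1 - v.2.2.1) * (v.1 + v.2.2.1 - (v.2.1 + v.2.2.2)) := by
      intro v hv hfv
      obtain ⟨a, b, c, d⟩ := v
      rw [hT, mem_filter, near, mem_filter, mem_bx] at hv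
      simp only [hf, l1, l2, Prod.mk.injEq] at hv hfv ⊢
      obtain ⟨⟨⟨⟨ha1, ha2⟩, ⟨hb1, hb2⟩, ⟨hc1, hc2⟩, ⟨hd1, hd2⟩⟩, g1, g2⟩, g3⟩ := hv
      obtain ⟨e1, e2, e3⟩ := hfv
      rw [e2] at g1 g3
      rw [e3] at g2 g3
      rw [e1] at g3 ⊢
      refine ⟨?_, ?_, ?_⟩
      · rw [hh]
        intro h0
        exact g3 (by linarith)
      · have k1 : |h| ≤ M + M * (2 * N) := by
          rw [hh]
          refine (abs_sub w (u * q)).trans ?_
          rw [abs_mul]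
          have k2 : |q| ≤ 2 * N := by
            rw [abs_le]
            constructor <;> omega
          have k3 : |u| * |q| ≤ M * (2 * N) := mul_le_mul g1 k2 (abs_nonneg _) (by positivity)
          linarith
        zify
        exact k1
      · rw [hh, ← e1, ← e2, ← e3]
        ring
    obtain ⟨hne, hle, _⟩ := hprop v0 hv0 hfv0
    have hdiv := hD h.natAbs (Int.natAbs_pos.2 hne) hle
    set S' : Finset ℤ := (h.natAbs.divisors).image (fun d : ℕ => (d : ℤ)) ∪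
      (h.natAbs.divisors).image (fun d : ℕ => -(d : ℤ)) with hS'
    have hS'card : S'.card ≤ 2 * D := by
      have h2 := card_union_le ((h.natAbs.divisors).image (fun d : ℕ => (d : ℤ)))
        ((h.natAbs.divisors).image (fun d : ℕ => -(d : ℤ)))
      have h3 := card_image_le (s := h.natAbs.divisors) (f := fun d : ℕ => (d : ℤ))
      have h4 := card_image_le (s := h.natAbs.divisors) (f := fun d : ℕ => -(d : ℤ))
      rw [hS']
      omega
    have hmem : ∀ g : ℤ, g ∣ h → g ∈ S' := by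
      intro g hg
      have h6 : g.natAbs ∈ h.natAbs.divisors := by
        rw [Nat.mem_divisors]
        exact ⟨Int.natAbs_dvd_natAbs.mpr hg, Int.natAbs_ne_zero.mpr hne⟩
      rw [hS', mem_union, mem_image, mem_image]
      rcases le_total 0 g with h0 | h0
      · left; exact ⟨_, h6, by omega⟩
      · right; exact ⟨_, h6, by omega⟩
    refine le_trans ?_ hS'card
    apply Finset.card_le_card_of_injOn (fun v => v.1 - v.2.2.1)
    · intro v hv
      rw [Finset.mem_coe, mem_filter] at hv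
      rw [Finset.mem_coe]
      apply hmem
      rw [(hprop v hv.1 hv.2).2.2]
      exact dvd_mul_right _ _
    · intro v hv v' hv' heq
      rw [Finset.mem_coe, mem_filter] at hv hv'
      have k1 := (hprop v hv.1 hv.2).2.2
      have k2 := (hprop v' hv'.1 hv'.2).2.2
      have f1 := hv.2
      have f2 := hv'.2
      obtain ⟨a, b, c, d⟩ := v
      obtain ⟨a', b', c', d'⟩ := v'
      simp only [hf, l1, l2, Prod.mk.injEq] at k1 k2 f1 f2 heq ⊢
      have hac : a - c ≠ 0 := by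
        intro h0
        rw [h0, zero_mul] at k1
        exact hne k1
      have e5 : a + c - (b + d) = a' + c' - (b' + d') := by
        rw [k1, ← heq] at k2
        exact mul_left_cancel₀ hac k2
      refine ⟨by omega, by omega, by omega, by omega⟩
  have h2 : (T.image f).card ≤ (2 * N) * (2 * M + 1) ^ 2 := by
    have h3 : T.image f ⊆ (Icc 1 (2 * (N : ℤ))) ×ˢ ((Icc (-(M : ℤ)) M) ×ˢ (Icc (-(M : ℤ)) M)) := by
      intro y hy
      obtain ⟨v, hv, rfl⟩ := Finset.mem_image.1 hy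
      obtain ⟨a, b, c, d⟩ := v
      rw [hT, mem_filter, near, mem_filter, mem_bx] at hv
      simp only [hf, l1, l2, mem_product, mem_Icc] at hv ⊢
      obtain ⟨⟨⟨⟨ha1, ha2⟩, ⟨hb1, hb2⟩, ⟨hc1, hc2⟩, ⟨hd1, hd2⟩⟩, g1, g2⟩, g3⟩ := hv
      rw [abs_le] at g1 g2
      exact ⟨⟨by omega, by omega⟩, g1, g2⟩
    refine (Finset.card_le_card h3).trans (le_of_eq ?_)
    rw [card_product, card_product, Int.card_Icc, Int.card_Icc]
    have e1 : (2 * (N : ℤ) + 1 - 1).toNat = 2 * N := by omega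
    have e2 : ((M : ℤ) + 1 - -(M : ℤ)).toNat = 2 * M + 1 := by omega
    rw [e1, e2]
    ring
  exact h1.trans (Nat.mul_le_mul_left _ h2)

theorem cnt (ε : ℝ) (hε : 0 < ε) : ∃ C : ℝ, 0 < C ∧ ∀ N M : ℕ, 1 ≤ N → 1 ≤ M →
    ((near N M).card : ℝ) ≤ C * (N : ℝ) ^ ε * ((N : ℝ) ^ 2 + N * (M : ℝ) ^ 2) := by
  classical
  obtain ⟨C1, hC1, hdiv⟩ := Pool.Agent.H510R2.divisor_bound (ε / 3) (by linarith)
  refine ⟨2 + 36 * (C1 * 3 ^ (ε / 3)), by positivity, fun N M hN hM => ?_⟩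
  have hN' : (1 : ℝ) ≤ N := by exact_mod_cast hN
  have hM' : (1 : ℝ) ≤ M := by exact_mod_cast hM
  have hN0 : (0 : ℝ) < N := by linarith
  have hNe : 1 ≤ (N : ℝ) ^ ε := Real.one_le_rpow hN' hε.le
  have hA : 0 < C1 * (3 : ℝ) ^ (ε / 3) := by positivity
  rcases le_or_gt (N ^ 2) M with hMN | hMN
  · have h1 : (near N M).card ≤ N ^ 4 := by
      refine (card_filter_le _ _).trans (le_of_eq ?_)
      unfold bx
      rw [card_product, card_product, card_product, Int.card_Icc]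
      have e1 : ((N : ℤ) + 1 - 1).toNat = N := by omega
      rw [e1]
      ring
    have h2 : ((near N M).card : ℝ) ≤ (N : ℝ) ^ 4 := by exact_mod_cast h1
    have h3 : (N : ℝ) ^ 2 ≤ M := by exact_mod_cast hMN
    have h4 : (N : ℝ) ^ 4 ≤ N * (M : ℝ) ^ 2 := by
      calc (N : ℝ) ^ 4 = 1 * ((N : ℝ) ^ 2) ^ 2 := by ring
        _ ≤ N * (M : ℝ) ^ 2 :=
          mul_le_mul hN' (pow_le_pow_left₀ (by positivity) h3 2) (by positivity) hN0.le
    have h5 : (1 : ℝ) ≤ (2 + 36 * (C1 * 3 ^ (ε / 3))) * (N : ℝ) ^ ε := by nlinarith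
    have h6 : (0 : ℝ) ≤ (N : ℝ) ^ 2 + N * (M : ℝ) ^ 2 := by positivity
    have h7 : (0 : ℝ) ≤ (N : ℝ) ^ 2 := by positivity
    calc ((near N M).card : ℝ) ≤ 1 * ((N : ℝ) ^ 2 + N * (M : ℝ) ^ 2) := by linarith
      _ ≤ _ := mul_le_mul_of_nonneg_right h5 h6
  · set L : ℕ := 3 * N ^ 3 with hL
    have hL1 : M + M * (2 * N) ≤ L := by
      have h1 : M ≤ N ^ 2 := hMN.le
      calc M + M * (2 * N) ≤ M * N + M * (2 * N) := by nlinarith
        _ = 3 * (M * N) := by ring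
        _ ≤ 3 * (N ^ 2 * N) := by gcongr
        _ = L := by rw [hL]; ring
    set D : ℕ := ⌊C1 * (L : ℝ) ^ (ε / 3)⌋₊ with hD
    have hD' : (D : ℝ) ≤ C1 * (L : ℝ) ^ (ε / 3) := Nat.floor_le (by positivity)
    have hDb : ∀ n : ℕ, 1 ≤ n → n ≤ M + M * (2 * N) → n.divisors.card ≤ D := by
      intro n hn hnL
      apply Nat.le_floor
      refine (hdiv n hn).trans ?_
      refine mul_le_mul_of_nonneg_left ?_ hC1.le
      exact Real.rpow_le_rpow (by positivity) (by exact_mod_cast hnL.trans hL1) (by positivity)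
    have h1 := nondeg N M D hDb
    have h2 := deg N M
    have h3 := Finset.card_filter_add_card_filter_not (s := near N M)
      (fun v => l2 v = l1 v * (v.2.1 + v.2.2.2))
    have h4 : (near N M).card ≤ 2 * N ^ 2 + 2 * (N * M ^ 2) + (2 * D) * ((2 * N) * (2 * M + 1) ^ 2) := by
      omega
    have h5 : ((near N M).card : ℝ) ≤ 2 * (N : ℝ) ^ 2 + 2 * (N * (M : ℝ) ^ 2) +
        (2 * D) * ((2 * N) * (2 * M + 1) ^ 2) := by exact_mod_cast h4
    have h6 : (C1 * (L : ℝ) ^ (ε / 3)) = C1 * 3 ^ (ε / 3) * (N : ℝ) ^ ε := by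
      rw [hL]
      push_cast
      rw [Real.mul_rpow (by norm_num) (by positivity), ← Real.rpow_natCast (N : ℝ) 3,
        ← Real.rpow_mul hN0.le]
      have e : ((3 : ℕ) : ℝ) * (ε / 3) = ε := by push_cast; ring
      rw [e]
      ring
    rw [h6] at hD'
    have h7 : (2 * (M : ℝ) + 1) ^ 2 ≤ 9 * (M : ℝ) ^ 2 := by nlinarith
    set A : ℝ := C1 * 3 ^ (ε / 3) with hAd
    have h8 : (2 * (D : ℝ)) * ((2 * N) * (2 * M + 1) ^ 2) ≤
        (2 * (A * (N : ℝ) ^ ε)) * ((2 * N) * (9 * (M : ℝ) ^ 2)) := by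
      gcongr
    have h9 : 0 ≤ A * (N : ℝ) ^ ε * (N : ℝ) ^ 2 := by positivity
    have h10 : 2 * (N : ℝ) ^ 2 + 2 * (N * (M : ℝ) ^ 2) ≤
        (N : ℝ) ^ ε * (2 * (N : ℝ) ^ 2 + 2 * (N * (M : ℝ) ^ 2)) :=
      le_mul_of_one_le_left (by positivity) hNe
    calc ((near N M).card : ℝ) ≤ (N : ℝ) ^ ε * (2 * (N : ℝ) ^ 2 + 2 * (N * (M : ℝ) ^ 2)) +
          (2 * (A * (N : ℝ) ^ ε)) * ((2 * N) * (9 * (M : ℝ) ^ 2)) := by linarith
      _ ≤ (2 + 36 * A) * (N : ℝ) ^ ε * ((N : ℝ) ^ 2 + N * (M : ℝ) ^ 2) := by nlinarith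

end Pool.Agent.Run7.h783.LM
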