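import Pool.Agent.Run7.h783.LM.Main

/-!
# Local fourth moments of Weyl sums with weights, final form (helper783)
-/

set_option autoImplicit false

open Finset MeasureTheory

namespace Pool.Agent.Run7.h783.LM

theorem cnt_nat (N M r : ℕ) (δ : ℝ) (hδ : 0 ≤ δ) :
    ∑ v ∈ (Icc 1 N) ×ˢ ((Icc 1 N) ×ˢ ((Icc 1 N) ×ˢ (Icc 1 N))),
        ∏ j : Fin (r + 2), (if (j : ℕ) < 2 then (if |la v j| ≤ M then 3 / (M : ℝ) else 0) else δ) ≤
      9 / (M : ℝ) ^ 2 * δ ^ r * (near N M).card := by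
  classical
  have h1 : ∀ v : ℕ × ℕ × ℕ × ℕ,
      ∏ j : Fin (r + 2), (if (j : ℕ) < 2 then (if |la v j| ≤ M then 3 / (M : ℝ) else 0) else δ) =
        if |la v 0| ≤ M ∧ |la v 1| ≤ M then 9 / (M : ℝ) ^ 2 * δ ^ r else 0 := by
    intro v
    set F : ℕ → ℝ := fun j => if j < 2 then (if |la v j| ≤ M then 3 / (M : ℝ) else 0) else δ with hF
    have e1 : ∏ j : Fin (r + 2), (if (j : ℕ) < 2 then (if |la v j| ≤ M then 3 / (M : ℝ) else 0) else δ) =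
        ∏ j : Fin (r + 2), F (j : ℕ) := rfl
    rw [e1, Fin.prod_univ_eq_prod_range F (r + 2), Finset.prod_range_succ', Finset.prod_range_succ']
    have h2 : ∀ j ∈ range r, F (j + 1 + 1) = δ := by
      intro j _
      simp only [hF]
      rw [if_neg (by omega)]
    rw [Finset.prod_congr rfl h2, Finset.prod_const, Finset.card_range]
    have h3 : F 0 = if |la v 0| ≤ M then 3 / (M : ℝ) else 0 := by
      simp only [hF]
      rw [if_pos (by norm_num)]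
    have h4 : F (0 + 1) = if |la v 1| ≤ M then 3 / (M : ℝ) else 0 := by
      simp only [hF]
      rw [if_pos (by norm_num)]
    rw [h3, h4]
    by_cases ha : |la v 0| ≤ M
    · by_cases hb : |la v 1| ≤ M
      · rw [if_pos ha, if_pos hb, if_pos ⟨ha, hb⟩]
        ring
      · have hc : ¬ (|la v 0| ≤ M ∧ |la v 1| ≤ M) := fun h => hb h.2
        rw [if_neg hb, if_neg hc]
        ring
    · have hc : ¬ (|la v 0| ≤ M ∧ |la v 1| ≤ M) := fun h => ha h.1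
      rw [if_neg ha, if_neg hc]
      ring
  simp_rw [h1]
  rw [← Finset.sum_filter, Finset.sum_const, nsmul_eq_mul, mul_comm]
  refine mul_le_mul_of_nonneg_left ?_ (by positivity)
  have h3 : (((Icc 1 N) ×ˢ ((Icc 1 N) ×ˢ ((Icc 1 N) ×ˢ (Icc 1 N)))).filter
      fun v => |la v 0| ≤ M ∧ |la v 1| ≤ M).card ≤ (near N M).card := by
    apply Finset.card_le_card_of_injOn
      (fun v : ℕ × ℕ × ℕ × ℕ => (((v.1 : ℤ), (v.2.1 : ℤ), (v.2.2.1 : ℤ), (v.2.2.2 : ℤ)) : ℤ × ℤ × ℤ × ℤ))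
    · intro v hv
      rw [Finset.mem_coe, mem_filter, mem_product, mem_product, mem_product, mem_Icc, mem_Icc, mem_Icc,
        mem_Icc] at hv
      obtain ⟨⟨⟨a1, a2⟩, ⟨b1, b2⟩, ⟨c1, c2⟩, ⟨d1, d2⟩⟩, e1, e2⟩ := hv
      rw [Finset.mem_coe, near, mem_filter, mem_bx]
      unfold la at e1 e2
      simp only [zero_add, pow_one] at e1
      norm_num at e2
      refine ⟨⟨⟨?_, ?_⟩, ⟨?_, ?_⟩, ⟨?_, ?_⟩, ⟨?_, ?_⟩⟩, ?_, ?_⟩
      · dsimp only; omega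
      · dsimp only; omega
      · dsimp only; omega
      · dsimp only; omega
      · dsimp only; omega
      · dsimp only; omega
      · dsimp only; omega
      · dsimp only; omega
      · simpa [l1] using e1
      · simpa [l2] using e2
    · intro v _ v' _ h
      simp only [Prod.mk.injEq, Nat.cast_inj] at h
      obtain ⟨a, b, c, d⟩ := v
      obtain ⟨a', b', c', d'⟩ := v'
      simp only [Prod.mk.injEq] at h ⊢
      exact h
  exact_mod_cast h3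

/-- **Local fourth moments.** -/
theorem main (d : ℕ) (hd : 2 ≤ d) (ε : ℝ) (hε : 0 < ε) : ∃ C : ℝ, 0 < C ∧ ∀ (N : ℕ) (δ : ℝ),
    1 ≤ N → 0 < δ → δ ≤ 1 → ∀ (ξ : Fin d → ℝ) (a : ℕ → ℂ), (∀ n, ‖a n‖ ≤ 1) →
      ∫ x in Set.pi Set.univ (fun j => Set.Icc (ξ j) (ξ j + δ)), ‖ws a N x‖ ^ 4 ≤
        C * (N : ℝ) ^ ε * (δ ^ d * (N : ℝ) ^ 2 + δ ^ (d - 2) * N) := by
  obtain ⟨r, rfl⟩ : ∃ r, d = r + 2 := ⟨d - 2, by omega⟩
  obtain ⟨C, hC, hcnt⟩ := cnt ε hε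
  refine ⟨36 * C, by positivity, fun N δ hN hδ hδ1 ξ a ha => ?_⟩
  rw [Nat.add_sub_cancel]
  set M : ℕ := ⌊1 / δ⌋₊ with hMd
  have h1δ : 1 ≤ 1 / δ := by rw [le_div_iff₀ hδ]; linarith
  have hM : 1 ≤ M := Nat.le_floor (by exact_mod_cast h1δ)
  have hM' : (1 : ℝ) ≤ M := by exact_mod_cast hM
  have hM0 : (0 : ℝ) < M := by linarith
  have hMle : (M : ℝ) ≤ 1 / δ := Nat.floor_le (by positivity)
  have hMδ : δ ≤ 1 / M := by
    rw [le_div_iff₀ hM0]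
    rw [le_div_iff₀ hδ] at hMle
    linarith
  have hlt : 1 / δ < M + 1 := Nat.lt_floor_add_one _
  have h2 : 1 / (M : ℝ) ≤ 2 * δ := by
    rw [div_le_iff₀ hM0]
    rw [div_lt_iff₀ hδ] at hlt
    nlinarith
  have h3 := local_four hM ξ δ hδ hδ1 hMδ a ha N
  have h4 := cnt_nat N M r δ hδ.le
  have h5 := hcnt N M hN hM
  have h6 : 9 / (M : ℝ) ^ 2 * δ ^ r * (near N M).card ≤
      9 / (M : ℝ) ^ 2 * δ ^ r * (C * (N : ℝ) ^ ε * ((N : ℝ) ^ 2 + N * (M : ℝ) ^ 2)) :=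
    mul_le_mul_of_nonneg_left h5 (by positivity)
  refine h3.trans (h4.trans (h6.trans ?_))
  have h7 : 9 / (M : ℝ) ^ 2 * δ ^ r * (C * (N : ℝ) ^ ε * ((N : ℝ) ^ 2 + N * (M : ℝ) ^ 2)) =
      9 * C * (N : ℝ) ^ ε * δ ^ r * ((1 / (M : ℝ)) ^ 2 * (N : ℝ) ^ 2 + N) := by
    field_simp
  have h8 : (1 / (M : ℝ)) ^ 2 ≤ (2 * δ) ^ 2 := pow_le_pow_left₀ (by positivity) h2 2
  rw [h7]
  calc 9 * C * (N : ℝ) ^ ε * δ ^ r * ((1 / (M : ℝ)) ^ 2 * (N : ℝ) ^ 2 + N) ≤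
        9 * C * (N : ℝ) ^ ε * δ ^ r * ((2 * δ) ^ 2 * (N : ℝ) ^ 2 + 4 * N) := by
        have hN0 : (0 : ℝ) ≤ N := Nat.cast_nonneg N
        refine mul_le_mul_of_nonneg_left ?_ (by positivity)
        have h9 : (1 / (M : ℝ)) ^ 2 * (N : ℝ) ^ 2 ≤ (2 * δ) ^ 2 * (N : ℝ) ^ 2 :=
          mul_le_mul_of_nonneg_right h8 (by positivity)
        linarith
    _ = 36 * C * (N : ℝ) ^ ε * (δ ^ (r + 2) * (N : ℝ) ^ 2 + δ ^ r * N) := by ring

end Pool.Agent.Run7.h783.LM
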