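import Pool.Agent.Run7.h783.LM.Cnt
import Pool.Agent.N965.LN.Fej

/-!
# The Fejér kernel on a short interval (helper783)
-/

set_option autoImplicit false

open Finset MeasureTheory

namespace Pool.Agent.Run7.h783.LM

open Pool.Agent.N965.LN.Fej (e D e_add e_zero e_sum norm_e fej D_ge)
open Pool.Agent.N965.LN (dn)

theorem e_cont : Continuous e := by
  unfold Pool.Agent.N965.LN.Fej.e
  fun_prop

theorem D_cont (M : ℕ) : Continuous (D M) := by
  unfold Pool.Agent.N965.LN.Fej.D
  have := e_cont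
  fun_prop

theorem int_e (u : ℝ) (m : ℤ) : ∫ x in u..(u + 1), e (m * x) = if m = 0 then 1 else 0 := by
  split_ifs with h
  · subst h
    simp only [Int.cast_zero, zero_mul, e_zero, intervalIntegral.integral_const]
    simp
  · have hc : (Complex.I * (2 * Real.pi * m : ℂ)) ≠ 0 := by
      have h1 : (m : ℂ) ≠ 0 := by exact_mod_cast h
      have h2 : (Real.pi : ℂ) ≠ 0 := by exact_mod_cast Real.pi_ne_zero
      simp [Complex.I_ne_zero, h1, h2]
    have h1 : ∀ x : ℝ, e (m * x) = Complex.exp ((Complex.I * (2 * Real.pi * m : ℂ)) * x) := by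
      intro x
      unfold Pool.Agent.N965.LN.Fej.e
      congr 1
      push_cast
      ring
    simp_rw [h1]
    rw [integral_exp_mul_complex hc]
    have h2 : Complex.exp (Complex.I * (2 * Real.pi * m : ℂ) * ((u + 1 : ℝ) : ℂ)) =
        Complex.exp (Complex.I * (2 * Real.pi * m : ℂ) * (u : ℂ)) := by
      rw [Complex.exp_eq_exp_iff_exists_int]
      refine ⟨m, ?_⟩
      push_cast
      ring
    rw [h2, sub_self, zero_div]

/-- the kernel -/
noncomputable def ker (M : ℕ) (c x : ℝ) : ℝ := Real.pi ^ 2 / (4 * (M : ℝ) ^ 2) * ‖D M (x - c)‖ ^ 2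

theorem ker_cont (M : ℕ) (c : ℝ) : Continuous (ker M c) := by
  unfold ker
  have := D_cont M
  fun_prop

theorem ker_nonneg (M : ℕ) (c x : ℝ) : 0 ≤ ker M c x := by
  unfold ker
  positivity

theorem ker_ge {M : ℕ} (hM : 1 ≤ M) (c x : ℝ) (h : |x - c| ≤ 1 / (2 * M)) : 1 ≤ ker M c x := by
  have hM' : (1 : ℝ) ≤ M := by exact_mod_cast hM
  have hM0 : (0 : ℝ) < M := by linarith
  have hd : dn (x - c) ≤ 1 / (2 * M) := by
    refine le_trans ?_ h
    have := round_le (x - c) 0
    simpa [dn] using this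
  have h1 := D_ge hM hd
  have h2 : (2 * (M : ℝ) / Real.pi) ^ 2 ≤ ‖D M (x - c)‖ ^ 2 :=
    pow_le_pow_left₀ (by positivity) h1 2
  unfold ker
  calc (1 : ℝ) = Real.pi ^ 2 / (4 * (M : ℝ) ^ 2) * (2 * (M : ℝ) / Real.pi) ^ 2 := by
        have := Real.pi_pos
        field_simp
        ring
    _ ≤ _ := mul_le_mul_of_nonneg_left h2 (by positivity)

theorem ker_int {M : ℕ} (hM : 1 ≤ M) (c u : ℝ) (l : ℤ) :
    ‖∫ x in u..(u + 1), (ker M c x : ℂ) * e (l * x)‖ ≤ if |l| ≤ M then 3 / (M : ℝ) else 0 := by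
  have hM' : (1 : ℝ) ≤ M := by exact_mod_cast hM
  have hM0 : (0 : ℝ) < M := by linarith
  have h1 : ∀ x : ℝ, (ker M c x : ℂ) * e (l * x) = ∑ a ∈ Icc (-(M : ℤ)) M,
      (((Real.pi ^ 2 / (4 * (M : ℝ) ^ 2) : ℝ) : ℂ) * ((((M : ℝ) - |(a : ℝ)| : ℝ) : ℂ) * e (-(a * c)))) *
        e (((a + l : ℤ) : ℝ) * x) := by
    intro x
    unfold ker
    push_cast
    have h2 := fej M (x - c)
    push_cast at h2
    rw [← h2, mul_sum, sum_mul]
    apply sum_congr rfl
    intro a _
    have h3 : e ((a : ℝ) * (x - c)) * e (l * x) = e (-(a * c)) * e (((a : ℝ) + l) * x) := by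
      rw [← e_add, ← e_add]
      congr 1
      ring
    linear_combination ((Real.pi : ℂ) ^ 2 / (4 * (M : ℂ) ^ 2) * ((M : ℂ) - (|(a : ℝ)| : ℝ))) * h3
  simp_rw [h1]
  rw [intervalIntegral.integral_finsetSum]
  · simp_rw [intervalIntegral.integral_const_mul, int_e]
    have h4 : ∀ a ∈ Icc (-(M : ℤ)) M,
        ‖(((Real.pi ^ 2 / (4 * (M : ℝ) ^ 2) : ℝ) : ℂ) * ((((M : ℝ) - |(a : ℝ)| : ℝ) : ℂ) * e (-(a * c)))) *
          (if a + l = 0 then 1 else 0)‖ ≤ if a = -l then 3 / (M : ℝ) else 0 := by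
      intro a ha
      rw [mem_Icc] at ha
      by_cases hal : a = -l
      · rw [if_pos (by omega), if_pos hal, mul_one, norm_mul, norm_mul, norm_e, mul_one,
          Complex.norm_real, Complex.norm_real, Real.norm_of_nonneg (by positivity)]
        have h5 : |(a : ℝ)| ≤ M := by
          rw [abs_le]
          have := ha.1
          have := ha.2
          constructor
          · exact_mod_cast ha.1
          · exact_mod_cast ha.2
        rw [Real.norm_of_nonneg (by linarith)]
        have h6 : (M : ℝ) - |(a : ℝ)| ≤ M := by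
          have := abs_nonneg (a : ℝ)
          linarith
        have h7 : Real.pi ^ 2 ≤ 12 := by
          have := Real.pi_lt_d2
          have := Real.pi_pos
          nlinarith
        calc Real.pi ^ 2 / (4 * (M : ℝ) ^ 2) * ((M : ℝ) - |(a : ℝ)|) ≤
              12 / (4 * (M : ℝ) ^ 2) * M := by gcongr
          _ = 3 / (M : ℝ) := by field_simp; norm_num
      · rw [if_neg (by omega), if_neg hal, mul_zero, norm_zero]
    refine (norm_sum_le _ _).trans ((sum_le_sum h4).trans ?_)
    rw [Finset.sum_ite_eq']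
    by_cases hl : |l| ≤ M
    · rw [if_pos hl]
      split_ifs
      · exact le_rfl
      · positivity
    · rw [if_neg hl, if_neg]
      intro h8
      rw [mem_Icc] at h8
      apply hl
      rw [abs_le]
      constructor <;> omega
  · intro a _
    apply Continuous.intervalIntegrable
    have := e_cont
    fun_prop

end Pool.Agent.Run7.h783.LM
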