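import Pool.Agent.Run7.h783.LM.Fin

/-!
# Local moments of order `2 s ≤ 4` (helper783)
-/

set_option autoImplicit false

open Finset MeasureTheory

namespace Pool.Agent.Run7.h783.LM

theorem ws_cont {d : ℕ} (a : ℕ → ℂ) (N : ℕ) : Continuous (fun x : Fin d → ℝ => ws a N x) := by
  unfold ws ph
  have := e_cont
  fun_prop

theorem ptw (y A s : ℝ) (hy : 0 ≤ y) (hA : 0 < A) (hs : 0 < s) (hs2 : s ≤ 2) :
    y ^ (2 * s) ≤ A ^ s + A ^ (s - 2) * y ^ 4 := by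
  have h0 : 0 ≤ A ^ s := by positivity
  have h1 : 0 ≤ A ^ (s - 2) * y ^ 4 := by positivity
  have e1 : y ^ (2 * s) = (y ^ 2) ^ s := by
    rw [← Real.rpow_natCast y 2, ← Real.rpow_mul hy]
    congr 1
  rw [e1]
  rcases le_or_gt (y ^ 2) A with h | h
  · have := Real.rpow_le_rpow (by positivity) h hs.le
    linarith
  · have hy2 : 0 < y ^ 2 := hA.trans h
    have h2 : (y ^ 2) ^ (s - 2) ≤ A ^ (s - 2) :=
      Real.rpow_le_rpow_of_nonpos hA h.le (by linarith)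
    have e2 : (y ^ 2) ^ s = (y ^ 2) ^ (s - 2) * y ^ 4 := by
      have e3 : y ^ 4 = (y ^ 2) ^ (2 : ℝ) := by
        rw [show (2 : ℝ) = ((2 : ℕ) : ℝ) by norm_num, Real.rpow_natCast]
        ring
      rw [e3, ← Real.rpow_add hy2]
      congr 1
      ring
    rw [e2]
    have h3 : (y ^ 2) ^ (s - 2) * y ^ 4 ≤ A ^ (s - 2) * y ^ 4 :=
      mul_le_mul_of_nonneg_right h2 (by positivity)
    linarith

theorem low (d : ℕ) (hd : 2 ≤ d) (s : ℝ) (hs : 0 < s) (hs2 : s ≤ 2) (ε : ℝ) (hε : 0 < ε) :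
    ∃ C : ℝ, 0 < C ∧ ∀ (N : ℕ) (δ : ℝ), 1 ≤ N → 0 < δ → δ ≤ 1 → 1 ≤ δ ^ 2 * N →
      ∀ (ξ : Fin d → ℝ) (a : ℕ → ℂ), (∀ n, ‖a n‖ ≤ 1) →
      ∫ x in Set.pi Set.univ (fun j => Set.Icc (ξ j) (ξ j + δ)), ‖ws a N x‖ ^ (2 * s) ≤
        C * (N : ℝ) ^ ε * (δ ^ d * (N : ℝ) ^ s) := by
  obtain ⟨C, hC, h⟩ := main d hd ε hε
  refine ⟨1 + 2 * C, by positivity, fun N δ hN hδ hδ1 hδN ξ a ha => ?_⟩
  have hN' : (1 : ℝ) ≤ N := by exact_mod_cast hN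
  have hN0 : (0 : ℝ) < N := by linarith
  have hNe : 1 ≤ (N : ℝ) ^ ε := Real.one_le_rpow hN' hε.le
  have h1 := h N δ hN hδ hδ1 ξ a ha
  set S : Set (Fin d → ℝ) := Set.pi Set.univ (fun j => Set.Icc (ξ j) (ξ j + δ)) with hS
  have hcomp : IsCompact S := isCompact_univ_pi fun j => isCompact_Icc
  have hcont := ws_cont (d := d) a N
  have hint : IntegrableOn (fun x : Fin d → ℝ => ‖ws a N x‖ ^ 4) S :=
    (hcont.norm.pow 4).continuousOn.integrableOn_compact hcomp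
  have hvol : (volume S).toReal = δ ^ d := by
    rw [hS, volume_pi_pi]
    simp only [Real.volume_Icc, add_sub_cancel_left]
    rw [Finset.prod_const, Finset.card_univ, Fintype.card_fin, ENNReal.toReal_pow,
      ENNReal.toReal_ofReal hδ.le]
  have hfin : volume S ≠ ⊤ := hcomp.measure_lt_top.ne
  have hc : IntegrableOn (fun _ : Fin d → ℝ => (N : ℝ) ^ s) S := integrableOn_const hfin
  have hm : IntegrableOn (fun x : Fin d → ℝ => (N : ℝ) ^ (s - 2) * ‖ws a N x‖ ^ 4) S :=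
    hint.const_mul _
  have h2 : ∫ x in S, ‖ws a N x‖ ^ (2 * s) ≤
      ∫ x in S, ((N : ℝ) ^ s + (N : ℝ) ^ (s - 2) * ‖ws a N x‖ ^ 4) := by
    apply integral_mono_of_nonneg
    · exact Filter.Eventually.of_forall fun x => by positivity
    · exact hc.add hm
    · exact Filter.Eventually.of_forall fun x => ptw _ _ s (norm_nonneg _) hN0 hs hs2
  have h3 : ∫ x in S, ((N : ℝ) ^ s + (N : ℝ) ^ (s - 2) * ‖ws a N x‖ ^ 4) =
      δ ^ d * (N : ℝ) ^ s + (N : ℝ) ^ (s - 2) * ∫ x in S, ‖ws a N x‖ ^ 4 := by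
    rw [integral_add hc hm, integral_const_mul, setIntegral_const, measureReal_def, hvol, smul_eq_mul]
  rw [h3] at h2
  refine h2.trans ?_
  have h4 : δ ^ (d - 2) * (N : ℝ) ≤ δ ^ d * (N : ℝ) ^ 2 := by
    have e : δ ^ d = δ ^ (d - 2) * δ ^ 2 := by
      rw [← pow_add]
      congr 1
      omega
    rw [e]
    calc δ ^ (d - 2) * (N : ℝ) = δ ^ (d - 2) * N * 1 := by ring
      _ ≤ δ ^ (d - 2) * N * (δ ^ 2 * N) := mul_le_mul_of_nonneg_left hδN (by positivity)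
      _ = _ := by ring
  have h5 : ∫ x in S, ‖ws a N x‖ ^ 4 ≤ C * (N : ℝ) ^ ε * (2 * (δ ^ d * (N : ℝ) ^ 2)) := by
    refine h1.trans (mul_le_mul_of_nonneg_left ?_ (by positivity))
    linarith
  have h6 : (N : ℝ) ^ (s - 2) * ∫ x in S, ‖ws a N x‖ ^ 4 ≤
      (N : ℝ) ^ (s - 2) * (C * (N : ℝ) ^ ε * (2 * (δ ^ d * (N : ℝ) ^ 2))) :=
    mul_le_mul_of_nonneg_left h5 (by positivity)
  have e3 : (N : ℝ) ^ (s - 2) * (N : ℝ) ^ 2 = (N : ℝ) ^ s := by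
    rw [← Real.rpow_natCast (N : ℝ) 2, ← Real.rpow_add hN0]
    congr 1
    push_cast
    ring
  have h7 : (N : ℝ) ^ (s - 2) * (C * (N : ℝ) ^ ε * (2 * (δ ^ d * (N : ℝ) ^ 2))) =
      2 * C * (N : ℝ) ^ ε * (δ ^ d * (N : ℝ) ^ s) := by
    rw [← e3]
    ring
  rw [h7] at h6
  have h8 : δ ^ d * (N : ℝ) ^ s ≤ (N : ℝ) ^ ε * (δ ^ d * (N : ℝ) ^ s) :=
    le_mul_of_one_le_left (by positivity) hNe
  calc δ ^ d * (N : ℝ) ^ s + (N : ℝ) ^ (s - 2) * ∫ x in S, ‖ws a N x‖ ^ 4 ≤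
        (N : ℝ) ^ ε * (δ ^ d * (N : ℝ) ^ s) + 2 * C * (N : ℝ) ^ ε * (δ ^ d * (N : ℝ) ^ s) :=
        add_le_add h8 h6
    _ = (1 + 2 * C) * (N : ℝ) ^ ε * (δ ^ d * (N : ℝ) ^ s) := by ring

end Pool.Agent.Run7.h783.LM
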