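import Pool.Agent.Run7.h783.LM.Ker

/-!
# Local fourth moments of Weyl sums with weights (helper783)
-/

set_option autoImplicit false

open Finset MeasureTheory

namespace Pool.Agent.Run7.h783.LM

open Pool.Agent.N965.LN.Fej (e D e_add e_neg e_zero e_sum norm_e)

theorem four (I : Finset ℕ) (b : ℕ → ℂ) : ((‖∑ n ∈ I, b n‖ ^ 4 : ℝ) : ℂ) =
    ∑ v ∈ I ×ˢ (I ×ˢ (I ×ˢ I)), b v.1 * (b v.2.1 * ((starRingEnd ℂ) (b v.2.2.1) *
      (starRingEnd ℂ) (b v.2.2.2))) := by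
  have h1 : ∑ v ∈ I ×ˢ (I ×ˢ (I ×ˢ I)), b v.1 * (b v.2.1 * ((starRingEnd ℂ) (b v.2.2.1) *
      (starRingEnd ℂ) (b v.2.2.2))) =
      (∑ n ∈ I, b n) * ((∑ n ∈ I, b n) * ((∑ n ∈ I, (starRingEnd ℂ) (b n)) *
        (∑ n ∈ I, (starRingEnd ℂ) (b n)))) := by
    rw [Finset.sum_product]
    simp_rw [← Finset.mul_sum]
    rw [← Finset.sum_mul]
    congr 1
    rw [Finset.sum_product]
    simp_rw [← Finset.mul_sum]
    rw [← Finset.sum_mul]
    congr 1
    rw [Finset.sum_product]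
    simp_rw [← Finset.mul_sum]
    rw [← Finset.sum_mul]
  rw [h1, ← map_sum]
  have h2 := Complex.mul_conj (∑ n ∈ I, b n)
  rw [Complex.normSq_eq_norm_sq] at h2
  have h3 : ((‖∑ n ∈ I, b n‖ ^ 4 : ℝ) : ℂ) = (((‖∑ n ∈ I, b n‖ ^ 2 : ℝ)) : ℂ) ^ 2 := by
    push_cast
    ring
  rw [h3, ← h2]
  ring

/-- the phase -/
noncomputable def ph {d : ℕ} (x : Fin d → ℝ) (n : ℕ) : ℝ := ∑ j, x j * (n : ℝ) ^ ((j : ℕ) + 1)

/-- the weighted Weyl sum -/
noncomputable def ws {d : ℕ} (a : ℕ → ℂ) (N : ℕ) (x : Fin d → ℝ) : ℂ := ∑ n ∈ Icc 1 N, a n * e (ph x n)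

/-- the forms -/
def la (v : ℕ × ℕ × ℕ × ℕ) (j : ℕ) : ℤ :=
  (v.1 : ℤ) ^ (j + 1) + (v.2.1 : ℤ) ^ (j + 1) - (v.2.2.1 : ℤ) ^ (j + 1) - (v.2.2.2 : ℤ) ^ (j + 1)

/-- the coefficients -/
noncomputable def cf (a : ℕ → ℂ) (v : ℕ × ℕ × ℕ × ℕ) : ℂ :=
  a v.1 * (a v.2.1 * ((starRingEnd ℂ) (a v.2.2.1) * (starRingEnd ℂ) (a v.2.2.2)))

theorem cf_le (a : ℕ → ℂ) (ha : ∀ n, ‖a n‖ ≤ 1) (v : ℕ × ℕ × ℕ × ℕ) : ‖cf a v‖ ≤ 1 := by
  unfold cf
  rw [norm_mul, norm_mul, norm_mul, Complex.norm_conj, Complex.norm_conj]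
  have h : ∀ p q : ℝ, 0 ≤ p → p ≤ 1 → 0 ≤ q → q ≤ 1 → 0 ≤ p * q ∧ p * q ≤ 1 :=
    fun p q hp hp1 hq hq1 => ⟨mul_nonneg hp hq, mul_le_one₀ hp1 hq hq1⟩
  have h1 := h _ _ (norm_nonneg (a v.2.2.1)) (ha _) (norm_nonneg (a v.2.2.2)) (ha _)
  have h2 := h _ _ (norm_nonneg (a v.2.1)) (ha _) h1.1 h1.2
  exact (h _ _ (norm_nonneg (a v.1)) (ha _) h2.1 h2.2).2

theorem ws_four {d : ℕ} (a : ℕ → ℂ) (N : ℕ) (x : Fin d → ℝ) : ((‖ws a N x‖ ^ 4 : ℝ) : ℂ) =
    ∑ v ∈ (Icc 1 N) ×ˢ ((Icc 1 N) ×ˢ ((Icc 1 N) ×ˢ (Icc 1 N))), cf a v *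
      ∏ j : Fin d, e ((la v j : ℝ) * x j) := by
  unfold ws
  rw [four]
  apply sum_congr rfl
  intro v _
  have h1 : ∏ j : Fin d, e ((la v j : ℝ) * x j) =
      e (ph x v.1) * (e (ph x v.2.1) * ((starRingEnd ℂ) (e (ph x v.2.2.1)) *
        (starRingEnd ℂ) (e (ph x v.2.2.2)))) := by
    rw [← e_sum, ← e_neg, ← e_neg, ← e_add, ← e_add, ← e_add]
    congr 1
    unfold ph la
    rw [← Finset.sum_neg_distrib, ← Finset.sum_neg_distrib, ← Finset.sum_add_distrib,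
      ← Finset.sum_add_distrib, ← Finset.sum_add_distrib]
    apply sum_congr rfl
    intro j _
    push_cast
    ring
  rw [h1]
  unfold cf
  simp only [map_mul]
  ring

/-- the interval of the coordinate `j` -/
def iv {d : ℕ} (ξ : Fin d → ℝ) (δ : ℝ) (j : Fin d) : Set ℝ :=
  if (j : ℕ) < 2 then Set.Icc (ξ j) (ξ j + 1) else Set.Icc (ξ j) (ξ j + δ)

/-- the weight of the coordinate `j` -/
noncomputable def wt {d : ℕ} (M : ℕ) (ξ : Fin d → ℝ) (δ : ℝ) (j : Fin d) (t : ℝ) : ℝ :=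
  if (j : ℕ) < 2 then ker M (ξ j + δ / 2) t else 1

theorem wt_cont {d : ℕ} (M : ℕ) (ξ : Fin d → ℝ) (δ : ℝ) (j : Fin d) : Continuous (wt M ξ δ j) := by
  unfold wt
  split_ifs
  · exact ker_cont _ _
  · exact continuous_const

theorem wt_nonneg {d : ℕ} (M : ℕ) (ξ : Fin d → ℝ) (δ : ℝ) (j : Fin d) (t : ℝ) : 0 ≤ wt M ξ δ j t := by
  unfold wt
  split_ifs
  · exact ker_nonneg _ _ _
  · exact zero_le_one

theorem iv_meas {d : ℕ} (ξ : Fin d → ℝ) (δ : ℝ) (j : Fin d) : MeasurableSet (iv ξ δ j) := by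
  unfold iv
  split_ifs <;> exact measurableSet_Icc

/-- the factor -/
noncomputable def fac {d : ℕ} (M : ℕ) (ξ : Fin d → ℝ) (δ : ℝ) (v : ℕ × ℕ × ℕ × ℕ) (j : Fin d) :
    ℝ → ℂ := (iv ξ δ j).indicator fun t => (wt M ξ δ j t : ℂ) * e ((la v j : ℝ) * t)

theorem fac_integrable {d : ℕ} (M : ℕ) (ξ : Fin d → ℝ) (δ : ℝ) (v : ℕ × ℕ × ℕ × ℕ) (j : Fin d) :
    Integrable (fac M ξ δ v j) := by
  unfold fac
  rw [integrable_indicator_iff (iv_meas ξ δ j)]
  have hc : Continuous (fun t : ℝ => (wt M ξ δ j t : ℂ) * e ((la v j : ℝ) * t)) := by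
    have := wt_cont M ξ δ j
    have := e_cont
    fun_prop
  unfold iv
  split_ifs <;> exact hc.integrableOn_Icc

theorem fac_bound {d : ℕ} {M : ℕ} (hM : 1 ≤ M) (ξ : Fin d → ℝ) (δ : ℝ) (hδ : 0 ≤ δ)
    (v : ℕ × ℕ × ℕ × ℕ) (j : Fin d) : ‖∫ t, fac M ξ δ v j t‖ ≤
      if (j : ℕ) < 2 then (if |la v j| ≤ M then 3 / (M : ℝ) else 0) else δ := by
  unfold fac
  rw [integral_indicator (iv_meas ξ δ j)]
  unfold iv wt
  by_cases hj : (j : ℕ) < 2
  · simp only [if_pos hj]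
    have h1 := ker_int hM (ξ j + δ / 2) (ξ j) (la v j)
    rw [intervalIntegral.integral_of_le (by linarith), ← integral_Icc_eq_integral_Ioc] at h1
    exact h1
  · simp only [if_neg hj]
    have h2 : ∀ t ∈ Set.Icc (ξ j) (ξ j + δ), ‖((1 : ℝ) : ℂ) * e ((la v j : ℝ) * t)‖ ≤ 1 := by
      intro t _
      rw [norm_mul, norm_e]
      simp
    refine (norm_setIntegral_le_of_norm_le_const (by
      rw [Real.volume_Icc]
      exact ENNReal.ofReal_lt_top) h2).trans (le_of_eq ?_)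
    rw [one_mul, measureReal_def, Real.volume_Icc, ENNReal.toReal_ofReal (by linarith)]
    ring

theorem local_four {d : ℕ} {M : ℕ} (hM : 1 ≤ M) (ξ : Fin d → ℝ) (δ : ℝ) (hδ : 0 < δ) (hδ1 : δ ≤ 1)
    (hMδ : δ ≤ 1 / M) (a : ℕ → ℂ) (ha : ∀ n, ‖a n‖ ≤ 1) (N : ℕ) :
    ∫ x in Set.pi Set.univ (fun j => Set.Icc (ξ j) (ξ j + δ)), ‖ws a N x‖ ^ 4 ≤
      ∑ v ∈ (Icc 1 N) ×ˢ ((Icc 1 N) ×ˢ ((Icc 1 N) ×ˢ (Icc 1 N))),
        ∏ j : Fin d, if (j : ℕ) < 2 then (if |la v j| ≤ M then 3 / (M : ℝ) else 0) else δ := by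
  classical
  have hM' : (1 : ℝ) ≤ M := by exact_mod_cast hM
  set g : (Fin d → ℝ) → ℝ := fun x => (∏ j, (iv ξ δ j).indicator (wt M ξ δ j) (x j)) * ‖ws a N x‖ ^ 4
    with hg
  have hG : ∀ x : Fin d → ℝ, ((g x : ℝ) : ℂ) =
      ∑ v ∈ (Icc 1 N) ×ˢ ((Icc 1 N) ×ˢ ((Icc 1 N) ×ˢ (Icc 1 N))), cf a v *
        ∏ j : Fin d, fac M ξ δ v j (x j) := by
    intro x
    simp only [hg]
    rw [Complex.ofReal_mul, ws_four, mul_sum]
    apply sum_congr rfl
    intro v _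
    have h1 : ∏ j : Fin d, fac M ξ δ v j (x j) =
        (((∏ j, (iv ξ δ j).indicator (wt M ξ δ j) (x j) : ℝ)) : ℂ) *
          ∏ j : Fin d, e ((la v j : ℝ) * x j) := by
      rw [Complex.ofReal_prod, ← Finset.prod_mul_distrib]
      apply prod_congr rfl
      intro j _
      unfold fac
      by_cases hx : x j ∈ iv ξ δ j
      · rw [Set.indicator_of_mem hx, Set.indicator_of_mem hx]
      · rw [Set.indicator_of_notMem hx, Set.indicator_of_notMem hx]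
        simp
    rw [h1]
    ring
  have hint : ∀ v : ℕ × ℕ × ℕ × ℕ, Integrable (fun x : Fin d → ℝ => cf a v *
      ∏ j : Fin d, fac M ξ δ v j (x j)) := by
    intro v
    apply Integrable.const_mul
    exact Integrable.fintype_prod (fun j => fac_integrable M ξ δ v j)
  have hGint : Integrable (fun x : Fin d → ℝ => ((g x : ℝ) : ℂ)) := by
    simp_rw [hG]
    exact integrable_finsetSum _ fun v _ => hint v
  have hgint : Integrable g := by
    have := hGint.re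
    simpa using this
  have h1 : ∫ x in Set.pi Set.univ (fun j => Set.Icc (ξ j) (ξ j + δ)), ‖ws a N x‖ ^ 4 ≤ ∫ x, g x := by
    rw [← integral_indicator (MeasurableSet.univ_pi fun j => measurableSet_Icc)]
    apply integral_mono_of_nonneg
    · exact Filter.Eventually.of_forall fun x => Set.indicator_nonneg (fun x _ => by positivity) x
    · exact hgint
    · refine Filter.Eventually.of_forall fun x => ?_
      by_cases hx : x ∈ Set.pi Set.univ (fun j => Set.Icc (ξ j) (ξ j + δ))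
      · rw [Set.indicator_of_mem hx]
        simp only [hg]
        refine le_mul_of_one_le_left (by positivity) ?_
        have h2 : ∀ j ∈ (Finset.univ : Finset (Fin d)), (1 : ℝ) ≤ (iv ξ δ j).indicator (wt M ξ δ j) (x j) := by
          intro j _
          have hxj := hx j (Set.mem_univ j)
          rw [Set.mem_Icc] at hxj
          unfold iv wt
          by_cases hj : (j : ℕ) < 2
          · simp only [if_pos hj]
            rw [Set.indicator_of_mem (by rw [Set.mem_Icc]; constructor <;> linarith)]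
            apply ker_ge hM
            rw [abs_le]
            have h3 : 1 / (2 * (M : ℝ)) = 1 / M / 2 := by field_simp
            rw [h3]
            constructor <;> linarith
          · simp only [if_neg hj]
            rw [Set.indicator_of_mem (by rw [Set.mem_Icc]; exact hxj)]
        calc (1 : ℝ) = ∏ j : Fin d, (1 : ℝ) := by rw [Finset.prod_const_one]
          _ ≤ _ := Finset.prod_le_prod (fun _ _ => zero_le_one) h2
      · rw [Set.indicator_of_notMem hx]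
        simp only [hg]
        refine mul_nonneg (Finset.prod_nonneg fun j _ => ?_) (by positivity)
        exact Set.indicator_nonneg (fun t _ => wt_nonneg M ξ δ j t) _
  refine h1.trans ?_
  have h2 : ‖((∫ x, g x : ℝ) : ℂ)‖ ≤ ∑ v ∈ (Icc 1 N) ×ˢ ((Icc 1 N) ×ˢ ((Icc 1 N) ×ˢ (Icc 1 N))),
        ∏ j : Fin d, if (j : ℕ) < 2 then (if |la v j| ≤ M then 3 / (M : ℝ) else 0) else δ := by
    rw [← integral_complex_ofReal]
    simp_rw [hG]
    rw [integral_finsetSum _ fun v _ => hint v]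
    refine (norm_sum_le _ _).trans (sum_le_sum fun v _ => ?_)
    rw [integral_const_mul, norm_mul]
    have h3 : ‖∫ x : Fin d → ℝ, ∏ j : Fin d, fac M ξ δ v j (x j)‖ ≤
        ∏ j : Fin d, if (j : ℕ) < 2 then (if |la v j| ≤ M then 3 / (M : ℝ) else 0) else δ := by
      rw [integral_fintype_prod_volume_eq_prod (fun j : Fin d => fac M ξ δ v j), norm_prod]
      exact Finset.prod_le_prod (fun j _ => norm_nonneg _) fun j _ => fac_bound hM ξ δ hδ.le v j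
    calc ‖cf a v‖ * ‖∫ x : Fin d → ℝ, ∏ j : Fin d, fac M ξ δ v j (x j)‖ ≤
          1 * ‖∫ x : Fin d → ℝ, ∏ j : Fin d, fac M ξ δ v j (x j)‖ :=
          mul_le_mul_of_nonneg_right (cf_le a ha v) (norm_nonneg _)
      _ ≤ _ := by rw [one_mul]; exact h3
  rw [Complex.norm_real] at h2
  exact (Real.le_norm_self _).trans h2

end Pool.Agent.Run7.h783.LM
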